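import Pool.Agent.Helper47.SE.H2a
import Pool.Agent.Helper47.SE.H2b

/-!
# Project SE, block H2: a good place from a good discriminant
-/

universe u

namespace Pool.Agent.SE

open VC Polynomial Pool.Agent.LT Pool.Agent.SC Pool.Agent.GC Pool.Agent.Helper91.Sect Pool.Agent
  Pool.Agent.TWX Pool.Agent.TWT Pool.Agent.TWH

/-- The coefficients of a product of linear factors over a valuation ring. -/
theorem coeff_prod_mem {A Om : Type u} [Field A] [Field Om] (φ : A →+* Om) {W : ValuationSubring Om}
    {T : Finset A} (hT : ∀ b ∈ T, φ b ∈ W) (i : ℕ) : φ ((∏ b ∈ T, (X - C b)).coeff i) ∈ W := by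
  have h1 : (∏ b ∈ T, (X - C b)).map φ =
      (∏ b ∈ T.attach, (X - C (⟨φ b, hT b b.2⟩ : W))).map W.subtype := by
    rw [Polynomial.map_prod, Polynomial.map_prod, ← Finset.prod_attach]
    refine Finset.prod_congr rfl fun b _ => ?_
    rw [Polynomial.map_sub, map_X, map_C, Polynomial.map_sub, map_X, map_C]
    rfl
  rw [← coeff_map, h1, coeff_map]
  exact ((∏ b ∈ T.attach, (X - C (⟨φ b, hT b b.2⟩ : W))).coeff i).2

/-- The coefficients of a product of linear factors are fixed if the roots are. -/
theorem coeff_prod_fixed {A Om : Type u} [Field A] [Field Om] (φ : A →+* Om) (τ : Om →+* Om)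
    {T : Finset A} (hT : ∀ b ∈ T, τ (φ b) = φ b) (i : ℕ) :
    τ (φ ((∏ b ∈ T, (X - C b)).coeff i)) = φ ((∏ b ∈ T, (X - C b)).coeff i) := by
  have h1 : ((∏ b ∈ T, (X - C b)).map φ).map τ = (∏ b ∈ T, (X - C b)).map φ := by
    rw [Polynomial.map_prod, Polynomial.map_prod]
    refine Finset.prod_congr rfl fun b hb => ?_
    rw [Polynomial.map_sub, map_X, map_C, Polynomial.map_sub, map_X, map_C, hT b hb]
  have h2 := congrArg (fun p : Om[X] => p.coeff i) h1
  simpa only [coeff_map] using h2

/-- Good elements, with the roots of `f`. -/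
theorem goodAt_roots {F k : Type u} [Field F] [Field k] [DecidableEq k] [Algebra F k]
    {v u : k} {Δ : F[X][X]} {E : Finset k} (hEtop : IntermediateField.adjoin F (E : Set k) = ⊤)
    (h : GoodAt F v u Δ E) {f : k[X]} (hdeg : 1 ≤ f.natDegree) (hs : f.discr ≠ 0)
    (hE : goodElts f 1 ⊆ E) {E' : Finset (AlgebraicClosure k)}
    (hE' : ∀ b ∈ E', (∃ a ∈ E, b = algebraMap k (AlgebraicClosure k) a) ∨
      ∃ (T : Finset (AlgebraicClosure k)) (i : ℕ), (∀ b ∈ T, aeval b f = 0) ∧
        b = (∏ b ∈ T, (X - C b)).coeff i) :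
    GoodAt F (algebraMap k (AlgebraicClosure k) v) (algebraMap k (AlgebraicClosure k) u) Δ E' := by
  intro Om _ _ W hc hv hu hΔ
  let φ : AlgebraicClosure k →+* Om := algebraMap (AlgebraicClosure k) Om
  let i1 : Algebra k Om := (φ.comp (algebraMap k (AlgebraicClosure k))).toAlgebra
  have hcomp : ∀ a : k, algebraMap k Om a = φ (algebraMap k (AlgebraicClosure k) a) := fun _ => rfl
  have hcF : ∀ c : F, algebraMap k Om (algebraMap F k c) =
      φ (algebraMap F (AlgebraicClosure k) c) := by
    intro c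
    rw [hcomp, ← IsScalarTower.algebraMap_apply F k (AlgebraicClosure k)]
  rw [ev_map] at hΔ
  obtain ⟨h1, h2⟩ := h Om W (fun c => by rw [hcF]; exact hc c) hv hu hΔ
  have hdisc : (f.map (algebraMap k Om)).discr = algebraMap k Om f.discr :=
    discr_map_of_injective _ (algebraMap k Om).injective _ hdeg
  have hlc : (f.map (algebraMap k Om)).leadingCoeff = algebraMap k Om f.leadingCoeff :=
    leadingCoeff_map _
  have hunit : ∀ a : k, a ≠ 0 → algebraMap k Om a⁻¹ ∈ W → algebraMap k Om a ∉ W.nonunits := by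
    intro a ha h3 h4
    rw [ValuationSubring.mem_nonunits_iff_or] at h4
    rcases h4 with h4 | h4
    · rw [_root_.map_eq_zero] at h4
      exact ha h4
    · apply h4
      rw [← map_inv₀]
      exact h3
  have hlc0 : f.leadingCoeff ≠ 0 := by
    rw [Ne, leadingCoeff_eq_zero]
    rintro rfl
    simp at hdeg
  have hroot : ∀ b : AlgebraicClosure k, aeval b f = 0 → φ b ∈ W ∧ ∀ τ : Om →+* Om,
      (∀ a : k, τ (algebraMap k Om a) = algebraMap k Om a) →
      (∀ z ∈ W, τ z - z ∈ W.nonunits) → τ (φ b) = φ b := by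
    intro b hb
    have h3 := fixes_root (W := W) (f := f.map (algebraMap k Om)) (η := φ b)
      (by rw [natDegree_map]; exact hdeg) (fun i => by
        rw [coeff_map]
        by_cases hi : i < f.natDegree + 1
        · refine h1 _ (hE ?_)
          unfold goodElts
          exact Finset.mem_union_left _ (Finset.mem_image_of_mem _ (Finset.mem_range.2 hi))
        · rw [coeff_eq_zero_of_natDegree_lt (by omega), map_zero]
          exact W.zero_mem)
      (by
        rw [hlc]
        exact hunit _ hlc0 (h1 _ (hE (by unfold goodElts; simp))))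
      (by
        rw [hdisc]
        exact hunit _ hs (h1 _ (hE (by unfold goodElts; simp))))
      (by
        rw [eval_map]
        change eval₂ (φ.comp (algebraMap k (AlgebraicClosure k))) (φ b) f = 0
        rw [← hom_eval₂]
        change φ (aeval b f) = 0
        rw [hb, map_zero])
    exact ⟨h3.1, fun τ hτ1 hτ2 => h3.2 τ (fun i => by rw [coeff_map]; exact hτ1 _) hτ2⟩
  constructor
  · intro b hb
    rcases hE' b hb with ⟨a, ha, rfl⟩ | ⟨T, i, hT, rfl⟩
    · exact h1 a ha
    · exact coeff_prod_mem φ (fun b hb => (hroot b (hT b hb)).1) i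
  · intro τ hτc hτv hτu hτW b hb
    have hτF : ∀ c : F, τ (algebraMap k Om (algebraMap F k c)) = algebraMap k Om (algebraMap F k c) := by
      intro c
      rw [hcF]
      exact hτc c
    have h3 := h2 τ hτF hτv hτu hτW
    have hτk : ∀ a : k, τ (algebraMap k Om a) = algebraMap k Om a := by
      have h4 : (⊤ : IntermediateField F k).toSubfield ≤
          ((τ.comp (algebraMap k Om)).eqLocusField (algebraMap k Om)) := by
        rw [← hEtop, IntermediateField.adjoin_toSubfield, Subfield.closure_le]
        rintro a (⟨e, rfl⟩ | ha)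
        · exact hτF e
        · exact h3 a ha
      intro a
      have h5 : a ∈ (⊤ : IntermediateField F k) := IntermediateField.mem_top
      exact h4 h5
    rcases hE' b hb with ⟨a, ha, rfl⟩ | ⟨T, i, hT, rfl⟩
    · exact h3 a ha
    · exact coeff_prod_fixed φ τ (fun b hb => (hroot b (hT b hb)).2 τ hτk hτW) i

/-- **Block H2**. -/
theorem h2 : StmtH2.{u} := by
  intro F k _ _ _ _ _ hF v u hvu hfin hreg Δ hΔ E hEtop hgood f hdeg hsep hE U hU
  classical
  have hk0 : CharZero k := charZero_of_injective_algebraMap (algebraMap F k).injective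
  have hs : f.discr ≠ 0 := discr_ne_zero_of_separable hdeg hsep
  have hf0 : f ≠ 0 := by
    rintro rfl
    simp at hdeg
  have hlc0 : f.leadingCoeff ≠ 0 := leadingCoeff_ne_zero.2 hf0
  let R : Finset (AlgebraicClosure k) := (f.aroots (AlgebraicClosure k)).toFinset
  have hR : ∀ b, b ∈ R ↔ aeval b f = 0 := by
    intro b
    rw [Multiset.mem_toFinset, mem_aroots]
    exact ⟨fun h => h.2, fun h => ⟨hf0, h⟩⟩
  let Q : Finset (AlgebraicClosure k) := (R.powerset ×ˢ Finset.range (R.card + 1)).image
    fun p => (∏ b ∈ p.1, (X - C b)).coeff p.2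
  have hQ : ∀ (T : Finset (AlgebraicClosure k)) (i : ℕ), T ⊆ R → i ≤ R.card →
      (∏ b ∈ T, (X - C b)).coeff i ∈ Q := by
    intro T i hT hi
    exact Finset.mem_image.2 ⟨(T, i), Finset.mem_product.2 ⟨Finset.mem_powerset.2 hT,
      Finset.mem_range.2 (by omega)⟩, rfl⟩
  let E' : Finset (AlgebraicClosure k) := E.image (algebraMap k (AlgebraicClosure k)) ∪ Q
  let M : Finset k[X] := Q.image (minpoly k)
  have hEE' : ∀ a ∈ E, algebraMap k (AlgebraicClosure k) a ∈ E' := fun a ha =>
    Finset.mem_union_left _ (Finset.mem_image_of_mem _ ha)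
  have hgood' : GoodAt F (algebraMap k (AlgebraicClosure k) v)
      (algebraMap k (AlgebraicClosure k) u) Δ E' := by
    refine goodAt_roots hEtop hgood hdeg hs hE ?_
    intro b hb
    rcases Finset.mem_union.1 hb with hb | hb
    · obtain ⟨a, ha, rfl⟩ := Finset.mem_image.1 hb
      exact Or.inl ⟨a, ha, rfl⟩
    · obtain ⟨⟨T, i⟩, hTi, rfl⟩ := Finset.mem_image.1 hb
      exact Or.inr ⟨T, i, fun b hb => (hR b).1 (Finset.mem_powerset.1
        (Finset.mem_product.1 hTi).1 hb), rfl⟩
  have hadj : ∀ a : k, algebraMap k (AlgebraicClosure k) a ∈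
      IntermediateField.adjoin F (E' : Set (AlgebraicClosure k)) := by
    have h1 : (⊤ : IntermediateField F k).toSubfield ≤
        (IntermediateField.adjoin F (E' : Set (AlgebraicClosure k))).toSubfield.comap
          (algebraMap k (AlgebraicClosure k)) := by
      rw [← hEtop, IntermediateField.adjoin_toSubfield, Subfield.closure_le]
      rintro a (⟨e, rfl⟩ | ha)
      · change algebraMap k (AlgebraicClosure k) (algebraMap F k e) ∈
          IntermediateField.adjoin F (E' : Set (AlgebraicClosure k))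
        rw [← IsScalarTower.algebraMap_apply F k (AlgebraicClosure k)]
        exact IntermediateField.algebraMap_mem _ e
      · exact IntermediateField.subset_adjoin _ _ (hEE' a ha)
    intro a
    have h2 : a ∈ (⊤ : IntermediateField F k) := IntermediateField.mem_top
    exact h1 h2
  have hM : ∀ q ∈ M, ∀ b : AlgebraicClosure k,
      eval₂ ((algebraMap k (AlgebraicClosure k)).comp (RingHom.id k)) b q = 0 → b ∈ E' := by
    intro q hq b hb
    obtain ⟨c, hc, rfl⟩ := Finset.mem_image.1 hq
    obtain ⟨⟨T, i⟩, hTi, rfl⟩ := Finset.mem_image.1 hc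
    rw [RingHom.comp_id] at hb
    have h1 : IsConjRoot k ((∏ b ∈ T, (X - C b)).coeff i) b :=
      isConjRoot_of_aeval_eq_zero (Algebra.IsIntegral.isIntegral _) hb
    obtain ⟨γ, hγ⟩ := isConjRoot_iff_exists_algEquiv.1 h1
    have hTi1 : T ⊆ R := Finset.mem_powerset.1 (Finset.mem_product.1 hTi).1
    have hTi2 : i ≤ R.card := by
      have := Finset.mem_range.1 (Finset.mem_product.1 hTi).2
      omega
    let δ : AlgebraicClosure k ≃ₐ[k] AlgebraicClosure k := γ.symm
    have h2 : b = δ ((∏ b ∈ T, (X - C b)).coeff i) := by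
      rw [← hγ]
      exact (γ.symm_apply_apply b).symm
    have h3 : (∏ b ∈ T, (X - C b)).map (δ : AlgebraicClosure k →+* AlgebraicClosure k) =
        ∏ b ∈ T.image δ, (X - C b) := by
      rw [Polynomial.map_prod, Finset.prod_image δ.injective.injOn]
      refine Finset.prod_congr rfl fun b _ => ?_
      rw [Polynomial.map_sub, map_X, map_C]
      rfl
    have h4 : b = (∏ b ∈ T.image δ, (X - C b)).coeff i := by
      rw [← h3, coeff_map]
      exact h2
    rw [h4]
    refine Finset.mem_union_right _ (hQ _ _ ?_ hTi2)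
    intro b' hb'
    obtain ⟨b₁, hb₁, rfl⟩ := Finset.mem_image.1 hb'
    rw [hR]
    have h5 := (hR b₁).1 (hTi1 hb₁)
    have h6 : aeval (δ b₁) f = δ (aeval b₁ f) := by
      rw [← AlgEquiv.coe_toAlgHom, aeval_algHom_apply]
    rw [h6, h5, map_zero]
  obtain ⟨W, hEW, hG⟩ := goodPl_of_goodAt' hF hvu hfin hreg hΔ hadj hgood' (k₀ := k) (M := M)
    (U₀ := U) (ι := RingHom.id k) (fun a ha => ⟨(hU a ha).1, hEE' _ (hU a ha).2.1,
      hEE' _ (hU a ha).2.2⟩) hM
  have hval : ∀ a : k, a ≠ 0 → algebraMap k (AlgebraicClosure k) a ∈ W →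
      algebraMap k (AlgebraicClosure k) a⁻¹ ∈ W →
      W.valuation (algebraMap k (AlgebraicClosure k) a) = 1 := by
    intro a ha h1 h2
    have h3 := (W.valuation_le_one_iff _).2 h1
    have h4 := (W.valuation_le_one_iff _).2 h2
    rw [map_inv₀, map_inv₀] at h4
    have h5 : W.valuation (algebraMap k (AlgebraicClosure k) a) ≠ 0 :=
      (Valuation.ne_zero_iff _).2 ((_root_.map_ne_zero _).2 ha)
    exact le_antisymm h3 ((inv_le_one₀ (zero_lt_iff.2 h5)).1 h4)
  have hcoef : ∀ i, algebraMap k (AlgebraicClosure k) (f.coeff i) ∈ W := by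
    intro i
    by_cases hi : i < f.natDegree + 1
    · refine hEW _ (hEE' _ (hE ?_))
      unfold goodElts
      exact Finset.mem_union_left _ (Finset.mem_image_of_mem _ (Finset.mem_range.2 hi))
    · rw [coeff_eq_zero_of_natDegree_lt (by omega), map_zero]
      exact W.zero_mem
  have hlcW : W.valuation (algebraMap k (AlgebraicClosure k) f.leadingCoeff) = 1 :=
    hval _ hlc0 (hcoef _) (hEW _ (hEE' _ (hE (by unfold goodElts; simp))))
  have hdW : algebraMap k (AlgebraicClosure k) f.discr ∈ W := by
    have h1 := discr_mem_valuation (W := W) (f := f.map (algebraMap k (AlgebraicClosure k)))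
      (by rw [natDegree_map]; exact hdeg) (fun i => by rw [coeff_map]; exact hcoef i)
      (by
        rw [leadingCoeff_map, W.mem_nonunits_iff, hlcW]
        exact lt_irrefl _)
    rwa [discr_map_of_injective _ (algebraMap k (AlgebraicClosure k)).injective _ hdeg] at h1
  refine ⟨W, hG.const, hcoef, hlcW, hval _ hs hdW (hEW _ (hEE' _ (hE (by unfold goodElts; simp)))),
    hG.unit, hG.v_mem, hG.disc, ?_⟩
  intro T hT i hz
  have hTR : T ⊆ R := fun b hb => (hR b).2 (hT b hb)
  by_cases hi : i ≤ R.card
  · refine hG.move (minpoly k ((∏ b ∈ T, (X - C b)).coeff i))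
      (Finset.mem_image_of_mem _ (hQ T i hTR hi)) _ ?_ hz
    rw [RingHom.comp_id]
    exact minpoly.aeval k _
  · exfalso
    apply hz 0
    rw [map_zero]
    refine (coeff_eq_zero_of_natDegree_lt ?_).symm
    have h1 : (∏ b ∈ T, (X - C b)).natDegree = T.card := by
      rw [natDegree_prod_of_monic _ _ fun b _ => monic_X_sub_C b]
      simp
    rw [h1]
    have h2 := Finset.card_le_card hTR
    omega

end Pool.Agent.SE
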