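import Pool.Agent.Helper10.SE.Defs4

/-!
# Project SE, block H2: roots of polynomials with unit discriminant and leading coefficient
-/

universe u

namespace Pool.Agent.SE

open VC Polynomial Pool.Agent.LT Pool.Agent.SC Pool.Agent.GC Pool.Agent.Helper91.Sect Pool.Agent
  Pool.Agent.TWX Pool.Agent.TWT Pool.Agent.TWH

/-- A root of a polynomial over a valuation ring with unit leading coefficient and unit discriminant lies in the
valuation ring and is fixed by every endomorphism which fixes the coefficients and acts trivially on the residues. -/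
theorem fixes_root {Om : Type u} [Field Om] {W : ValuationSubring Om} {f : Om[X]}
    (hdeg : 0 < f.natDegree) (hfW : ∀ i, f.coeff i ∈ W) (hl : f.leadingCoeff ∉ W.nonunits)
    (hd : f.discr ∉ W.nonunits) {η : Om} (hη : f.eval η = 0) :
    η ∈ W ∧ ∀ τ : Om →+* Om, (∀ i, τ (f.coeff i) = f.coeff i) →
      (∀ z ∈ W, τ z - z ∈ W.nonunits) → τ η = η := by
  have hlif : f ∈ lifts W.subtype := by
    rw [lifts_iff_coeff_lifts]
    exact fun i => ⟨⟨f.coeff i, hfW i⟩, rfl⟩
  obtain ⟨q, hq1, hq2'⟩ := exists_degree_eq_of_mem_lifts hlif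
  have hq2 : q.natDegree = f.natDegree := natDegree_eq_of_degree_eq hq2'
  have hev : ∀ r : W[X], ∀ z : W, ((eval z r : W) : Om) = eval (z : Om) (r.map W.subtype) := by
    intro r z
    have h1 : W.subtype (eval z r) = eval (z : Om) (r.map W.subtype) := by
      rw [eval_map, ← eval₂_hom]
      rfl
    exact h1
  have hlc0 : f.leadingCoeff ≠ 0 := by
    intro h
    rw [leadingCoeff_eq_zero] at h
    rw [h] at hdeg
    simp at hdeg
  have hlv : W.valuation f.leadingCoeff = 1 := by
    refine le_antisymm ((W.valuation_le_one_iff _).2 (hfW _)) ?_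
    rw [W.mem_nonunits_iff, not_lt] at hl
    exact hl
  have hlinv : f.leadingCoeff⁻¹ ∈ W := by
    rw [← W.valuation_le_one_iff, map_inv₀, hlv, inv_one]
  -- `η` is in `W`
  have hηW : η ∈ W := by
    have hmon : (C f.leadingCoeff⁻¹ * f).Monic := by
      rw [Monic, leadingCoeff_mul, leadingCoeff_C, inv_mul_cancel₀ hlc0]
    have hl2 : (C f.leadingCoeff⁻¹ * f) ∈ lifts W.subtype := by
      rw [lifts_iff_coeff_lifts]
      intro i
      rw [coeff_C_mul]
      exact ⟨⟨_, W.mul_mem _ _ hlinv (hfW i)⟩, rfl⟩
    obtain ⟨p, hp1, hp2, hp3⟩ := lifts_and_natDegree_eq_and_monic hl2 hmon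
    have h1 : IsIntegral W η := by
      refine ⟨p, hp3, ?_⟩
      have h2 : (algebraMap W Om) = W.subtype := rfl
      rw [h2, ← eval_map, hp1, eval_mul, hη, mul_zero]
    obtain ⟨y, hy⟩ := IsIntegrallyClosed.isIntegral_iff.1 h1
    rw [← hy]
    exact y.2
  refine ⟨hηW, fun τ hτf hτ => ?_⟩
  have hδ : τ η - η ∈ W.nonunits := hτ η hηW
  have hδW : τ η - η ∈ W := W.nonunits_subset hδ
  set η' : W := ⟨η, hηW⟩ with hη'
  set δ' : W := ⟨τ η - η, hδW⟩ with hδ'
  have hroot : f.eval (τ η) = 0 := by
    have h1 := congrArg τ hη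
    rw [map_zero] at h1
    rw [← h1, ← eval₂_hom, ← eval_map]
    congr 1
    ext i
    rw [coeff_map, hτf]
  have e0 : eval η' q = 0 := by
    apply Subtype.ext
    rw [hev, hq1]
    exact hη
  have e1 : eval (η' + δ') q = 0 := by
    apply Subtype.ext
    rw [hev, hq1]
    have h2 : ((η' + δ' : W) : Om) = τ η := by
      change η + (τ η - η) = τ η
      ring
    rw [h2]
    exact hroot
  have hdeg' : 0 < f.degree := natDegree_pos_iff_degree_pos.1 hdeg
  obtain ⟨a, b, -, -, hab⟩ := exists_mul_add_mul_eq_C_resultant (m := f.natDegree)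
    (n := f.natDegree - 1) q (derivative q) hq2.le
    ((natDegree_derivative_le q).trans (by rw [hq2])) (Or.inl hdeg.ne')
  have hres : W.subtype (resultant q (derivative q) f.natDegree (f.natDegree - 1)) =
      (-1) ^ (f.natDegree * (f.natDegree - 1) / 2) * f.leadingCoeff * f.discr := by
    rw [← resultant_map_map, hq1, ← derivative_map, hq1, resultant_deriv hdeg']
  have hmain : ((eval η' (derivative q) : W) : Om) * ((eval η' b : W) : Om) =
      (-1) ^ (f.natDegree * (f.natDegree - 1) / 2) * f.leadingCoeff * f.discr := by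
    have h1 := congrArg (fun r : W[X] => eval η' r) hab
    simp only [eval_add, eval_mul, eval_C] at h1
    rw [e0, zero_mul, zero_add] at h1
    have h2 := congrArg (fun w : W => (w : Om)) h1
    rw [← hres]
    exact h2
  have hv : W.valuation ((eval η' (derivative q) : W) : Om) = 1 := by
    have h1 : W.valuation ((eval η' (derivative q) : W) : Om) ≤ 1 :=
      (W.valuation_le_one_iff _).2 (eval η' (derivative q)).2
    have h2 : W.valuation ((eval η' b : W) : Om) ≤ 1 :=
      (W.valuation_le_one_iff _).2 (eval η' b).2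
    have h3 : 1 ≤ W.valuation
        ((-1) ^ (f.natDegree * (f.natDegree - 1) / 2) * f.leadingCoeff * f.discr) := by
      rw [map_mul, map_mul, map_pow, Valuation.map_neg, map_one, one_pow, one_mul, hlv, one_mul]
      rw [W.mem_nonunits_iff, not_lt] at hd
      exact hd
    rw [← hmain, map_mul] at h3
    refine le_antisymm h1 (h3.trans ?_)
    exact mul_le_of_le_one_right' h2
  obtain ⟨w, hw⟩ := q.binomExpansion η' δ'
  rw [e0, e1, zero_add] at hw
  have hfac : δ' * (eval η' (derivative q) + w * δ') = 0 := by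
    linear_combination -hw
  rcases mul_eq_zero.1 hfac with h1 | h1
  · have h2 : τ η - η = 0 := congrArg (fun w : W => (w : Om)) h1
    exact sub_eq_zero.1 h2
  · exfalso
    have h2 : ((eval η' (derivative q) : W) : Om) = -((w : Om) * (τ η - η)) := by
      have h3 := congrArg (fun w : W => (w : Om)) h1
      have h4 : ((eval η' (derivative q) : W) : Om) + (w : Om) * (τ η - η) = 0 := h3
      linear_combination h4
    rw [h2, Valuation.map_neg, map_mul] at hv
    have h3 : W.valuation (w : Om) * W.valuation (τ η - η) < 1 :=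
      (mul_le_of_le_one_left' ((W.valuation_le_one_iff _).2 w.2)).trans_lt (W.mem_nonunits_iff.1 hδ)
    rw [hv] at h3
    exact lt_irrefl _ h3

/-- The discriminant of a polynomial over a valuation ring with unit leading coefficient is regular. -/
theorem discr_mem_valuation {Om : Type u} [Field Om] {W : ValuationSubring Om} {f : Om[X]}
    (hdeg : 0 < f.natDegree) (hfW : ∀ i, f.coeff i ∈ W) (hl : f.leadingCoeff ∉ W.nonunits) :
    f.discr ∈ W := by
  have hlif : f ∈ lifts W.subtype := by
    rw [lifts_iff_coeff_lifts]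
    exact fun i => ⟨⟨f.coeff i, hfW i⟩, rfl⟩
  obtain ⟨q, hq1, -⟩ := exists_degree_eq_of_mem_lifts hlif
  have hlv : W.valuation f.leadingCoeff = 1 := by
    refine le_antisymm ((W.valuation_le_one_iff _).2 (hfW _)) ?_
    rw [W.mem_nonunits_iff, not_lt] at hl
    exact hl
  have hdeg' : 0 < f.degree := natDegree_pos_iff_degree_pos.1 hdeg
  have hres : W.subtype (resultant q (derivative q) f.natDegree (f.natDegree - 1)) =
      (-1) ^ (f.natDegree * (f.natDegree - 1) / 2) * f.leadingCoeff * f.discr := by
    rw [← resultant_map_map, hq1, ← derivative_map, hq1, resultant_deriv hdeg']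
  have h1 : W.valuation (W.subtype (resultant q (derivative q) f.natDegree (f.natDegree - 1))) ≤ 1 :=
    (W.valuation_le_one_iff _).2 (resultant q (derivative q) f.natDegree (f.natDegree - 1)).2
  rw [hres, map_mul, map_mul, map_pow, Valuation.map_neg, map_one, one_pow, one_mul, hlv,
    one_mul] at h1
  exact (W.valuation_le_one_iff _).1 h1

end Pool.Agent.SE
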